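import Mathlib

/-!
# Completion of a star algebra with a C*-seminorm

If `R` is a complex star algebra with a seminorm satisfying the C*-identity, then
`UniformSpace.Completion R` is a C*-algebra.
-/

open UniformSpace

namespace CStarLim

/-- A seminormed complex star algebra satisfying the C*-identity. -/
class PreCStar (R : Type*) [SeminormedRing R] [StarRing R] [NormedAlgebra ℂ R]
    [StarModule ℂ R] : Prop where
  norm_star' : ∀ x : R, ‖star x‖ = ‖x‖
  norm_mul_self_le' : ∀ x : R, ‖x‖ * ‖x‖ ≤ ‖star x * x‖

variable {R : Type*} [SeminormedRing R] [StarRing R] [NormedAlgebra ℂ R]
    [StarModule ℂ R] [PreCStar R]

omit [StarModule ℂ R] in
theorem isometry_star_pre [StarModule ℂ R] [PreCStar R] : Isometry (star : R → R) := by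
  refine Isometry.of_dist_eq fun x y => ?_
  rw [dist_eq_norm, dist_eq_norm, ← star_sub, PreCStar.norm_star']

noncomputable instance instStarCompletion : Star (Completion R) :=
  ⟨Completion.map star⟩

theorem coe_star_completion (x : R) : star (x : Completion R) = ((star x : R) : Completion R) :=
  Completion.map_coe (isometry_star_pre (R := R)).uniformContinuous x

theorem continuous_star_completion : Continuous (star : Completion R → Completion R) :=
  Completion.continuous_map

noncomputable instance instStarRingCompletion : StarRing (Completion R) where
  star_involutive x := by
    induction x using Completion.induction_on with
    | hp => exact isClosed_eq (continuous_star_completion.comp continuous_star_completion)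
              continuous_id
    | ih a => rw [coe_star_completion, coe_star_completion, star_star]
  star_mul x y := by
    induction x, y using Completion.induction_on₂ with
    | hp =>
      refine isClosed_eq (continuous_star_completion.comp continuous_mul) ?_
      exact (continuous_star_completion.comp continuous_snd).mul
        (continuous_star_completion.comp continuous_fst)
    | ih a b =>
      rw [← Completion.coe_mul, coe_star_completion, coe_star_completion, coe_star_completion,
        star_mul, Completion.coe_mul]
  star_add x y := by
    induction x, y using Completion.induction_on₂ with
    | hp =>
      refine isClosed_eq (continuous_star_completion.comp continuous_add) ?_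
      exact (continuous_star_completion.comp continuous_fst).add
        (continuous_star_completion.comp continuous_snd)
    | ih a b =>
      rw [← Completion.coe_add, coe_star_completion, coe_star_completion, coe_star_completion,
        star_add, Completion.coe_add]

noncomputable instance instNormedAlgebraCompletion : NormedAlgebra ℂ (Completion R) where
  norm_smul_le := norm_smul_le

noncomputable instance instCStarAlgebraCompletion : CStarAlgebra (Completion R) where
  star_smul c x := by
    induction x using Completion.induction_on with
    | hp => exact isClosed_eq (continuous_star_completion.comp (continuous_const_smul c))
              ((continuous_const_smul (star c)).comp continuous_star_completion)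
    | ih a =>
      rw [← Completion.coe_smul, coe_star_completion, coe_star_completion, star_smul,
        Completion.coe_smul]
  norm_mul_self_le x := by
    induction x using Completion.induction_on with
    | hp => exact isClosed_le (continuous_norm.mul continuous_norm)
              (continuous_norm.comp (continuous_star_completion.mul continuous_id))
    | ih a =>
      rw [coe_star_completion, ← Completion.coe_mul, Completion.norm_coe, Completion.norm_coe]
      exact PreCStar.norm_mul_self_le' a

/-- The canonical star algebra homomorphism to the completion. -/
noncomputable def toCompletion : R →⋆ₐ[ℂ] Completion R where
  toFun := (↑)
  map_one' := Completion.coe_one R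
  map_mul' := Completion.coe_mul
  map_zero' := Completion.coe_zero
  map_add' := Completion.coe_add
  commutes' c := by
    rw [Algebra.algebraMap_eq_smul_one, Algebra.algebraMap_eq_smul_one, Completion.coe_smul,
      Completion.coe_one]
  map_star' x := (coe_star_completion x).symm

theorem toCompletion_apply (x : R) : toCompletion x = (x : Completion R) := rfl

end CStarLim
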