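import Pool.Agent.Lib.CStarLim.Completion

/-!
# C*-inductive limits of sequences with injective unital connecting homomorphisms
-/

open UniformSpace Filter Topology

namespace CStarLim

universe u v

section Evtl

variable {X : Type*}

/-- The eventual value of an eventually constant sequence. -/
noncomputable def evtl (f : ℕ → X) (h : ∃ x, ∀ᶠ n in atTop, f n = x) : X := h.choose

theorem evtl_spec (f : ℕ → X) (h : ∃ x, ∀ᶠ n in atTop, f n = x) :
    ∀ᶠ n in atTop, f n = evtl f h := h.choose_spec

theorem exists_evtl_of_step {f : ℕ → X} (h : ∀ᶠ n in atTop, f (n + 1) = f n) :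
    ∃ x, ∀ᶠ n in atTop, f n = x := by
  obtain ⟨N, hN⟩ := eventually_atTop.1 h
  refine ⟨f N, eventually_atTop.2 ⟨N, fun n hn => ?_⟩⟩
  induction n, hn using Nat.le_induction with
  | base => rfl
  | succ k hk ih => rw [hN k hk, ih]

end Evtl

/-- A sequence of C*-algebras with injective unital connecting homomorphisms. -/
structure IndSys (A : ℕ → Type u) [∀ n, CStarAlgebra (A n)] where
  /-- the connecting homomorphisms -/
  map : ∀ n, A n →⋆ₐ[ℂ] A (n + 1)
  inj : ∀ n, Function.Injective (map n)

variable {A : ℕ → Type u} [∀ n, CStarAlgebra (A n)]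

namespace IndSys

variable (s : IndSys A)

theorem norm_map (n : ℕ) (a : A n) : ‖s.map n a‖ = ‖a‖ :=
  NonUnitalStarAlgHom.norm_map (s.map n) (s.inj n) a

/-- The eventually compatible sequences. -/
def preSub : StarSubalgebra ℂ (∀ n, A n) where
  carrier := {a | ∀ᶠ n in atTop, a (n + 1) = s.map n (a n)}
  mul_mem' {a b} ha hb := by
    filter_upwards [ha, hb] with n h1 h2
    simp only [Pi.mul_apply, h1, h2, map_mul]
  add_mem' {a b} ha hb := by
    filter_upwards [ha, hb] with n h1 h2
    simp only [Pi.add_apply, h1, h2, map_add]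
  algebraMap_mem' r := by
    refine Eventually.of_forall fun n => ?_
    simp only [Pi.algebraMap_apply, AlgHomClass.commutes]
  star_mem' {a} ha := by
    filter_upwards [ha] with n h1
    simp only [Pi.star_apply, h1, map_star]

theorem mem_preSub {a : ∀ n, A n} : a ∈ s.preSub ↔ ∀ᶠ n in atTop, a (n + 1) = s.map n (a n) :=
  Iff.rfl

/-- The pre-limit as a type. -/
def Pre : Type u := s.preSub

noncomputable instance : Ring s.Pre := inferInstanceAs (Ring s.preSub)
noncomputable instance : StarRing s.Pre := inferInstanceAs (StarRing s.preSub)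
noncomputable instance : Algebra ℂ s.Pre := inferInstanceAs (Algebra ℂ s.preSub)
noncomputable instance : StarModule ℂ s.Pre := inferInstanceAs (StarModule ℂ s.preSub)

variable {s}

/-- The underlying sequence. -/
def Pre.seq (a : s.Pre) : ∀ n, A n := a.1

theorem Pre.eventually_map (a : s.Pre) : ∀ᶠ n in atTop, a.seq (n + 1) = s.map n (a.seq n) := a.2

theorem Pre.seq_mul (a b : s.Pre) (n : ℕ) : (a * b).seq n = a.seq n * b.seq n := rfl
theorem Pre.seq_add (a b : s.Pre) (n : ℕ) : (a + b).seq n = a.seq n + b.seq n := rfl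
theorem Pre.seq_sub (a b : s.Pre) (n : ℕ) : (a - b).seq n = a.seq n - b.seq n := rfl
theorem Pre.seq_neg (a : s.Pre) (n : ℕ) : (-a).seq n = -a.seq n := rfl
theorem Pre.seq_one (n : ℕ) : (1 : s.Pre).seq n = 1 := rfl
theorem Pre.seq_zero (n : ℕ) : (0 : s.Pre).seq n = 0 := rfl
theorem Pre.seq_star (a : s.Pre) (n : ℕ) : (star a).seq n = star (a.seq n) := rfl
theorem Pre.seq_smul (c : ℂ) (a : s.Pre) (n : ℕ) : (c • a).seq n = c • (a.seq n) := rfl

theorem Pre.exists_norm (a : s.Pre) : ∃ x, ∀ᶠ n in atTop, ‖a.seq n‖ = x := by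
  refine exists_evtl_of_step ?_
  filter_upwards [a.eventually_map] with n hn
  rw [hn, s.norm_map]

/-- The eventual norm. -/
noncomputable def Pre.nrm (a : s.Pre) : ℝ := evtl _ a.exists_norm

theorem Pre.eventually_nrm (a : s.Pre) : ∀ᶠ n in atTop, ‖a.seq n‖ = a.nrm :=
  evtl_spec _ a.exists_norm

/-- The eventual norm as a ring seminorm. -/
noncomputable def Pre.rs (s : IndSys A) : RingSeminorm s.Pre where
  toFun := Pre.nrm
  map_zero' := by
    obtain ⟨n, hn⟩ := (Pre.eventually_nrm (0 : s.Pre)).exists
    rw [← hn, Pre.seq_zero, norm_zero]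
  add_le' a b := by
    obtain ⟨n, h1, h2, h3⟩ := (a.eventually_nrm.and
      (b.eventually_nrm.and (a + b).eventually_nrm)).exists
    rw [← h1, ← h2, ← h3, Pre.seq_add]
    exact norm_add_le _ _
  neg' a := by
    obtain ⟨n, h1, h2⟩ := (a.eventually_nrm.and (-a).eventually_nrm).exists
    rw [← h1, ← h2, Pre.seq_neg, norm_neg]
  mul_le' a b := by
    obtain ⟨n, h1, h2, h3⟩ := (a.eventually_nrm.and
      (b.eventually_nrm.and (a * b).eventually_nrm)).exists
    rw [← h1, ← h2, ← h3, Pre.seq_mul]
    exact norm_mul_le _ _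

noncomputable instance : SeminormedRing s.Pre := (Pre.rs s).toSeminormedRing

theorem Pre.eventually_norm (a : s.Pre) : ∀ᶠ n in atTop, ‖a.seq n‖ = ‖a‖ :=
  a.eventually_nrm

noncomputable instance : NormedAlgebra ℂ s.Pre where
  norm_smul_le c a := by
    obtain ⟨n, h1, h2⟩ := (a.eventually_norm.and (c • a).eventually_norm).exists
    rw [← h1, ← h2, Pre.seq_smul]
    exact norm_smul_le _ _

instance : PreCStar s.Pre where
  norm_star' a := by
    obtain ⟨n, h1, h2⟩ := (a.eventually_norm.and (star a).eventually_norm).exists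
    rw [← h1, ← h2, Pre.seq_star, norm_star]
  norm_mul_self_le' a := by
    obtain ⟨n, h1, h2⟩ := (a.eventually_norm.and (star a * a).eventually_norm).exists
    rw [← h1, ← h2, Pre.seq_mul, Pre.seq_star, CStarRing.norm_star_mul_self]

variable (s) in
/-- The C*-inductive limit. -/
def Lim : Type u := Completion s.Pre

noncomputable instance : CStarAlgebra s.Lim := inferInstanceAs (CStarAlgebra (Completion s.Pre))

variable (s) in
/-- The canonical map from the pre-limit. -/
noncomputable def ofPre : s.Pre →⋆ₐ[ℂ] s.Lim := toCompletion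

theorem norm_ofPre (a : s.Pre) : ‖s.ofPre a‖ = ‖a‖ := Completion.norm_coe a

theorem denseRange_ofPre : DenseRange s.ofPre := Completion.denseRange_coe

theorem ofPre_eq_of_eventually {a b : s.Pre} (h : ∀ᶠ n in atTop, a.seq n = b.seq n) :
    s.ofPre a = s.ofPre b := by
  rw [← sub_eq_zero, ← map_sub, ← norm_eq_zero, norm_ofPre]
  obtain ⟨n, h1, h2⟩ := (h.and (a - b).eventually_norm).exists
  rw [← h2, Pre.seq_sub, h1, sub_self, norm_zero]

variable (s) in
/-- The sequence generated by an element of `A n`. -/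
noncomputable def gen (n : ℕ) (a : A n) : ∀ k, A k
  | 0 => if h : n = 0 then h ▸ a else 0
  | k + 1 => if h : n = k + 1 then h ▸ a else s.map k (gen n a k)

theorem gen_self (n : ℕ) (a : A n) : s.gen n a n = a := by
  cases n with
  | zero => simp [gen]
  | succ n => simp [gen]

theorem gen_succ {n k : ℕ} (h : n ≤ k) (a : A n) : s.gen n a (k + 1) = s.map k (s.gen n a k) := by
  rw [gen, dif_neg (by omega)]

theorem gen_mem (n : ℕ) (a : A n) : s.gen n a ∈ s.preSub :=
  eventually_atTop.2 ⟨n, fun _ hk => gen_succ hk a⟩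

/-- Compatibility of `gen` with structure. -/
theorem gen_mul (n : ℕ) (a b : A n) {k : ℕ} (hk : n ≤ k) :
    s.gen n (a * b) k = s.gen n a k * s.gen n b k := by
  induction k, hk using Nat.le_induction with
  | base => simp only [gen_self]
  | succ k hk ih => rw [gen_succ hk, gen_succ hk, gen_succ hk, ih, map_mul]

theorem gen_add (n : ℕ) (a b : A n) {k : ℕ} (hk : n ≤ k) :
    s.gen n (a + b) k = s.gen n a k + s.gen n b k := by
  induction k, hk using Nat.le_induction with
  | base => simp only [gen_self]
  | succ k hk ih => rw [gen_succ hk, gen_succ hk, gen_succ hk, ih, map_add]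

theorem gen_zero (n : ℕ) {k : ℕ} (hk : n ≤ k) : s.gen n 0 k = 0 := by
  induction k, hk using Nat.le_induction with
  | base => simp only [gen_self]
  | succ k hk ih => rw [gen_succ hk, ih, map_zero]

theorem gen_one (n : ℕ) {k : ℕ} (hk : n ≤ k) : s.gen n 1 k = 1 := by
  induction k, hk using Nat.le_induction with
  | base => simp only [gen_self]
  | succ k hk ih => rw [gen_succ hk, ih, map_one]

theorem gen_star (n : ℕ) (a : A n) {k : ℕ} (hk : n ≤ k) :
    s.gen n (star a) k = star (s.gen n a k) := by
  induction k, hk using Nat.le_induction with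
  | base => simp only [gen_self]
  | succ k hk ih => rw [gen_succ hk, gen_succ hk, ih, map_star]

theorem gen_algebraMap (n : ℕ) (c : ℂ) {k : ℕ} (hk : n ≤ k) :
    s.gen n (algebraMap ℂ _ c) k = algebraMap ℂ _ c := by
  induction k, hk using Nat.le_induction with
  | base => simp only [gen_self]
  | succ k hk ih => rw [gen_succ hk, ih, AlgHomClass.commutes]

theorem norm_gen (n : ℕ) (a : A n) {k : ℕ} (hk : n ≤ k) : ‖s.gen n a k‖ = ‖a‖ := by
  induction k, hk using Nat.le_induction with
  | base => simp only [gen_self]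
  | succ k hk ih => rw [gen_succ hk, s.norm_map, ih]

theorem gen_map (n : ℕ) (a : A n) {k : ℕ} (hk : n + 1 ≤ k) :
    s.gen (n + 1) (s.map n a) k = s.gen n a k := by
  induction k, hk using Nat.le_induction with
  | base => rw [gen_self, gen_succ le_rfl, gen_self]
  | succ k hk ih => rw [gen_succ hk, gen_succ (by omega), ih]

variable (s) in
/-- The element of the pre-limit generated by `a : A n`. -/
noncomputable def toPre (n : ℕ) (a : A n) : s.Pre := ⟨s.gen n a, gen_mem n a⟩

theorem toPre_seq (n : ℕ) (a : A n) (k : ℕ) : (s.toPre n a).seq k = s.gen n a k := rfl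

theorem eventually_ge_of {P : ℕ → Prop} (n : ℕ) (h : ∀ k, n ≤ k → P k) : ∀ᶠ k in atTop, P k :=
  eventually_atTop.2 ⟨n, h⟩

variable (s) in
/-- The canonical maps to the limit. -/
noncomputable def ι (n : ℕ) : A n →⋆ₐ[ℂ] s.Lim where
  toFun a := s.ofPre (s.toPre n a)
  map_one' := by
    rw [← map_one s.ofPre]
    exact ofPre_eq_of_eventually (eventually_ge_of n fun k hk => gen_one n hk)
  map_mul' a b := by
    rw [← map_mul s.ofPre]
    exact ofPre_eq_of_eventually (eventually_ge_of n fun k hk => gen_mul n a b hk)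
  map_zero' := by
    rw [← map_zero s.ofPre]
    exact ofPre_eq_of_eventually (eventually_ge_of n fun k hk => gen_zero n hk)
  map_add' a b := by
    rw [← map_add s.ofPre]
    exact ofPre_eq_of_eventually (eventually_ge_of n fun k hk => gen_add n a b hk)
  commutes' c := by
    rw [← AlgHomClass.commutes s.ofPre]
    exact ofPre_eq_of_eventually (eventually_ge_of n fun k hk => gen_algebraMap n c hk)
  map_star' a := by
    rw [← map_star s.ofPre]
    exact ofPre_eq_of_eventually (eventually_ge_of n fun k hk => gen_star n a hk)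

theorem ι_apply (n : ℕ) (a : A n) : s.ι n a = s.ofPre (s.toPre n a) := rfl

theorem norm_ι (n : ℕ) (a : A n) : ‖s.ι n a‖ = ‖a‖ := by
  rw [ι_apply, norm_ofPre]
  obtain ⟨k, h1, h2⟩ := ((s.toPre n a).eventually_norm.and (eventually_ge_atTop n)).exists
  rw [← h1, toPre_seq, norm_gen n a h2]

theorem ι_injective (n : ℕ) : Function.Injective (s.ι n) := by
  rw [injective_iff_map_eq_zero]
  intro a ha
  rw [← norm_eq_zero, ← norm_ι (s := s) n a, ha, norm_zero]

theorem ι_map (n : ℕ) (a : A n) : s.ι (n + 1) (s.map n a) = s.ι n a :=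
  ofPre_eq_of_eventually (eventually_ge_of (n + 1) fun _ hk => gen_map n a hk)

theorem ι_gen (n : ℕ) (a : A n) {k : ℕ} (hk : n ≤ k) : s.ι k (s.gen n a k) = s.ι n a := by
  induction k, hk using Nat.le_induction with
  | base => rw [gen_self]
  | succ k hk ih => rw [gen_succ hk, ι_map, ih]

/-- every element of the pre-limit is eventually in the image of `ι`. -/
theorem ofPre_eq_ι (a : s.Pre) : ∀ᶠ n in atTop, s.ofPre a = s.ι n (a.seq n) := by
  obtain ⟨N, hN⟩ := eventually_atTop.1 a.eventually_map
  refine eventually_ge_of N fun n hn => ?_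
  refine ofPre_eq_of_eventually (eventually_ge_of n fun k hk => ?_)
  induction k, hk using Nat.le_induction with
  | base => rw [toPre_seq, gen_self]
  | succ k hk ih => rw [hN k (hn.trans hk), ih, toPre_seq, toPre_seq, gen_succ hk]

theorem exists_ι_norm_sub_lt (x : s.Lim) {ε : ℝ} (hε : 0 < ε) (N : ℕ) :
    ∃ n, N ≤ n ∧ ∃ a : A n, ‖x - s.ι n a‖ < ε := by
  obtain ⟨a, ha⟩ := Metric.denseRange_iff.1 (denseRange_ofPre (s := s)) x ε hε
  rw [dist_eq_norm] at ha
  obtain ⟨n, h1, h2⟩ := ((ofPre_eq_ι a).and (eventually_ge_atTop N)).exists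
  exact ⟨n, h2, a.seq n, by rwa [← h1]⟩

/-- simultaneous approximation -/
theorem exists_ι_norm_sub_lt_family {κ : Type*} [Finite κ] (x : κ → s.Lim) {ε : ℝ} (hε : 0 < ε)
    (N : ℕ) : ∃ n, N ≤ n ∧ ∃ a : κ → A n, ∀ i, ‖x i - s.ι n (a i)‖ < ε := by
  cases nonempty_fintype κ
  choose n hn a ha using fun i => exists_ι_norm_sub_lt (x i) hε N
  let M := Finset.univ.sup n + N
  have hM : ∀ i, n i ≤ M := fun i =>
    (Finset.le_sup (f := n) (Finset.mem_univ i)).trans (Nat.le_add_right _ _)
  refine ⟨M, Nat.le_add_left _ _, fun i => s.gen (n i) (a i) M, fun i => ?_⟩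
  rw [ι_gen _ _ (hM i)]
  exact ha i

theorem lim_induction {P : s.Lim → Prop} (hc : IsClosed {x | P x}) (hι : ∀ n a, P (s.ι n a))
    (x : s.Lim) : P x := by
  refine (denseRange_ofPre (s := s)).induction_on x hc fun a => ?_
  obtain ⟨n, hn⟩ := (ofPre_eq_ι a).exists
  rw [hn]
  exact hι n _

theorem lim_induction₂ {P : s.Lim → s.Lim → Prop} (hc : IsClosed {x : s.Lim × s.Lim | P x.1 x.2})
    (hι : ∀ n a b, P (s.ι n a) (s.ι n b)) (x y : s.Lim) : P x y := by
  refine (denseRange_ofPre (s := s)).induction_on₂ hc (fun a b => ?_) x y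
  obtain ⟨n, h1, h2⟩ := ((ofPre_eq_ι a).and (ofPre_eq_ι b)).exists
  rw [h1, h2]
  exact hι n _ _

theorem dense_iUnion_ι : Dense (⋃ n, Set.range (s.ι n)) := by
  intro x
  rw [Metric.mem_closure_iff]
  intro ε hε
  obtain ⟨n, -, a, ha⟩ := exists_ι_norm_sub_lt x hε 0
  exact ⟨s.ι n a, Set.mem_iUnion.2 ⟨n, a, rfl⟩, by rwa [dist_eq_norm]⟩

theorem continuous_ι (n : ℕ) : Continuous (s.ι n) :=
  (AddMonoidHomClass.isometry_of_norm (s.ι n) (norm_ι n)).continuous

theorem separableSpace_lim (h : ∀ n, TopologicalSpace.SeparableSpace (A n)) :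
    TopologicalSpace.SeparableSpace s.Lim := by
  have h1 : TopologicalSpace.IsSeparable (⋃ n, Set.range (s.ι n)) :=
    TopologicalSpace.IsSeparable.iUnion fun n => by
      haveI := h n
      exact TopologicalSpace.isSeparable_range (continuous_ι n)
  have h2 := h1.closure
  rw [(dense_iUnion_ι (s := s)).closure_eq] at h2
  exact TopologicalSpace.isSeparable_univ_iff.1 h2

section Lift

variable {D : Type v} [CStarAlgebra D] (θ : ∀ n, A n →⋆ₐ[ℂ] D)
  (hθ : ∀ n a, θ (n + 1) (s.map n a) = θ n a)

include hθ in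
theorem exists_lift (a : s.Pre) : ∃ x, ∀ᶠ n in atTop, θ n (a.seq n) = x := by
  refine exists_evtl_of_step ?_
  filter_upwards [a.eventually_map] with n hn
  rw [hn, hθ]

/-- The lift on the pre-limit. -/
noncomputable def liftPre (a : s.Pre) : D := evtl _ (exists_lift θ hθ a)

theorem eventually_liftPre (a : s.Pre) : ∀ᶠ n in atTop, θ n (a.seq n) = liftPre θ hθ a :=
  evtl_spec _ (exists_lift θ hθ a)

/-- The lift on the pre-limit as a continuous linear map. -/
noncomputable def liftPreL : s.Pre →L[ℂ] D :=
  LinearMap.mkContinuous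
    { toFun := liftPre θ hθ
      map_add' := fun a b => by
        obtain ⟨n, h1, h2, h3⟩ := ((eventually_liftPre θ hθ a).and
          ((eventually_liftPre θ hθ b).and (eventually_liftPre θ hθ (a + b)))).exists
        rw [← h1, ← h2, ← h3, Pre.seq_add, map_add]
      map_smul' := fun c a => by
        obtain ⟨n, h1, h2⟩ := ((eventually_liftPre θ hθ a).and
          (eventually_liftPre θ hθ (c • a))).exists
        rw [← h1, ← h2, Pre.seq_smul, map_smul, RingHom.id_apply] } 1
    (fun a => by
      obtain ⟨n, h1, h2⟩ := ((eventually_liftPre θ hθ a).and a.eventually_norm).exists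
      change ‖liftPre θ hθ a‖ ≤ 1 * ‖a‖
      rw [← h1, ← h2, one_mul]
      exact NonUnitalStarAlgHom.norm_apply_le (θ n) _)

/-- The lift as a function on the limit. -/
noncomputable def liftFun : s.Lim → D := Completion.extension (liftPreL (s := s) θ hθ)

theorem continuous_liftFun : Continuous (liftFun (s := s) θ hθ) := Completion.continuous_extension

theorem liftFun_ofPre (a : s.Pre) : liftFun θ hθ (s.ofPre a) = liftPre θ hθ a :=
  Completion.extension_coe (liftPreL (s := s) θ hθ).uniformContinuous a

theorem liftFun_ι (n : ℕ) (a : A n) : liftFun θ hθ (s.ι n a) = θ n a := by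
  rw [ι_apply, liftFun_ofPre]
  obtain ⟨k, h1, h2⟩ := ((eventually_liftPre θ hθ (s.toPre n a)).and
    (eventually_ge_atTop n)).exists
  rw [← h1, toPre_seq]
  clear h1
  induction k, h2 using Nat.le_induction with
  | base => rw [gen_self]
  | succ k hk ih => rw [gen_succ hk, hθ, ih]

/-- The universal property: a compatible family of star homomorphisms induces a star
homomorphism on the limit. -/
noncomputable def lift : s.Lim →⋆ₐ[ℂ] D where
  toFun := liftFun θ hθ
  map_one' := by rw [← map_one (s.ι 0), liftFun_ι, map_one]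
  map_mul' x y := by
    refine lim_induction₂ (P := fun x y => liftFun θ hθ (x * y) =
      liftFun θ hθ x * liftFun θ hθ y) ?_ (fun n a b => ?_) x y
    · exact isClosed_eq ((continuous_liftFun θ hθ).comp continuous_mul)
        (((continuous_liftFun θ hθ).comp continuous_fst).mul
          ((continuous_liftFun θ hθ).comp continuous_snd))
    · rw [← map_mul, liftFun_ι, liftFun_ι, liftFun_ι, map_mul]
  map_zero' := by rw [← map_zero (s.ι 0), liftFun_ι, map_zero]
  map_add' x y := by
    refine lim_induction₂ (P := fun x y => liftFun θ hθ (x + y) =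
      liftFun θ hθ x + liftFun θ hθ y) ?_ (fun n a b => ?_) x y
    · exact isClosed_eq ((continuous_liftFun θ hθ).comp continuous_add)
        (((continuous_liftFun θ hθ).comp continuous_fst).add
          ((continuous_liftFun θ hθ).comp continuous_snd))
    · rw [← map_add, liftFun_ι, liftFun_ι, liftFun_ι, map_add]
  commutes' c := by
    rw [← AlgHomClass.commutes (s.ι 0), liftFun_ι, AlgHomClass.commutes]
  map_star' x := by
    refine lim_induction (P := fun x => liftFun θ hθ (star x) =
      star (liftFun θ hθ x)) ?_ (fun n a => ?_) x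
    · exact isClosed_eq ((continuous_liftFun θ hθ).comp continuous_star)
        (continuous_star.comp (continuous_liftFun θ hθ))
    · rw [← map_star, liftFun_ι, liftFun_ι, map_star]

theorem lift_ι (n : ℕ) (a : A n) : lift θ hθ (s.ι n a) = θ n a := liftFun_ι θ hθ n a

end Lift

theorem hom_ext {D : Type v} [CStarAlgebra D] {f g : s.Lim →⋆ₐ[ℂ] D}
    (h : ∀ n a, f (s.ι n a) = g (s.ι n a)) : f = g := by
  ext x
  refine lim_induction (P := fun x => f x = g x) ?_ h x
  refine isClosed_eq ?_ ?_
  · exact AddMonoidHomClass.continuous_of_bound f 1 fun x => by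
      simpa using NonUnitalStarAlgHom.norm_apply_le f x
  · exact AddMonoidHomClass.continuous_of_bound g 1 fun x => by
      simpa using NonUnitalStarAlgHom.norm_apply_le g x

section Action

variable {G : Type*} [Group G] (β : ∀ n, G →* (A n ≃⋆ₐ[ℂ] A n))
  (hβ : ∀ n g a, s.map n (β n g a) = β (n + 1) g (s.map n a))

/-- The induced endomorphism. -/
noncomputable def actHom (g : G) : s.Lim →⋆ₐ[ℂ] s.Lim :=
  lift (fun n => (s.ι n).comp (β n g : A n →⋆ₐ[ℂ] A n)) (fun n a => by
    simp only [StarAlgHom.comp_apply]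
    change s.ι (n + 1) (β (n + 1) g (s.map n a)) = s.ι n (β n g a)
    rw [← hβ, ι_map])

theorem actHom_ι (g : G) (n : ℕ) (a : A n) : actHom β hβ g (s.ι n a) = s.ι n (β n g a) :=
  lift_ι _ _ n a

theorem actHom_mul (g h : G) (x : s.Lim) :
    actHom β hβ (g * h) x = actHom β hβ g (actHom β hβ h x) := by
  have : actHom β hβ (g * h) = (actHom β hβ g).comp (actHom β hβ h) := by
    refine hom_ext fun n a => ?_
    rw [StarAlgHom.comp_apply, actHom_ι, actHom_ι, actHom_ι, map_mul]
    rfl
  rw [this]
  rfl

theorem actHom_one (x : s.Lim) : actHom β hβ 1 x = x := by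
  have : actHom β hβ 1 = StarAlgHom.id ℂ s.Lim := by
    refine hom_ext fun n a => ?_
    rw [actHom_ι, map_one]
    rfl
  rw [this]
  rfl

/-- The induced action on the limit. -/
noncomputable def act : G →* (s.Lim ≃⋆ₐ[ℂ] s.Lim) where
  toFun g :=
    { toFun := actHom β hβ g
      invFun := actHom β hβ g⁻¹
      left_inv := fun x => by rw [← actHom_mul, inv_mul_cancel, actHom_one]
      right_inv := fun x => by rw [← actHom_mul, mul_inv_cancel, actHom_one]
      map_mul' := fun x y => map_mul _ x y
      map_add' := fun x y => map_add _ x y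
      map_smul' := fun c x => map_smul _ c x
      map_star' := fun x => map_star _ x }
  map_one' := by
    ext x
    exact actHom_one β hβ x
  map_mul' g h := by
    ext x
    exact actHom_mul β hβ g h x

theorem act_ι (g : G) (n : ℕ) (a : A n) : act β hβ g (s.ι n a) = s.ι n (β n g a) :=
  actHom_ι β hβ g n a

end Action

end IndSys

end CStarLim
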