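import Pool.Agent.Lib.CStarLim.Limit

/-!
A criterion for simplicity of the inductive limit.
-/

open Filter Topology

namespace CStarLim

universe u

section Aux

variable {B : Type u} [CStarAlgebra B] [PartialOrder B] [StarOrderedRing B]

theorem hom_mono {D : Type*} [CStarAlgebra D] [PartialOrder D] [StarOrderedRing D]
    (φ : B →⋆ₐ[ℂ] D) {a b : B} (h : a ≤ b) : φ a ≤ φ b := by
  obtain ⟨y, hy⟩ := CStarAlgebra.nonneg_iff_eq_star_mul_self.1 (sub_nonneg.2 h)
  rw [← sub_nonneg, ← map_sub, hy, map_mul, map_star]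
  exact star_mul_self_nonneg _

theorem hom_algebraMap_real {D : Type*} [CStarAlgebra D]
    (φ : B →⋆ₐ[ℂ] D) (r : ℝ) : φ (algebraMap ℝ B r) = algebraMap ℝ D r := by
  have h1 : algebraMap ℝ B r = algebraMap ℂ B (r : ℂ) := by
    rw [Algebra.algebraMap_eq_smul_one, Algebra.algebraMap_eq_smul_one]
    exact (Complex.coe_smul r (1 : B)).symm
  have h2 : algebraMap ℝ D r = algebraMap ℂ D (r : ℂ) := by
    rw [Algebra.algebraMap_eq_smul_one, Algebra.algebraMap_eq_smul_one]
    exact (Complex.coe_smul r (1 : D)).symm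
  rw [h1, h2, AlgHomClass.commutes]

/-- the key functional calculus facts -/
theorem cutoff_facts (a : B) (ha : IsSelfAdjoint a) :
    ∃ g : B, IsSelfAdjoint g ∧ a ≤ g + algebraMap ℝ B (1 / 2) ∧
      algebraMap ℝ B (3 / 8) * (g * g) ≤ g * (a - algebraMap ℝ B (1 / 8)) * g := by
  refine ⟨cfc (fun t : ℝ => max (t - 1 / 2) 0) a, cfc_predicate _ a, ?_, ?_⟩
  · have h1 : cfc (fun t : ℝ => max (t - 1 / 2) 0) a + algebraMap ℝ B (1 / 2) =
        cfc (fun t : ℝ => max (t - 1 / 2) 0 + 1 / 2) a := by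
      rw [cfc_add_const (1 / 2 : ℝ) (fun t : ℝ => max (t - 1 / 2) 0) a]
    rw [h1]
    conv_lhs => rw [← cfc_id ℝ a ha]
    refine cfc_mono fun t _ => ?_
    simp only [id]
    have := le_max_left (t - 1 / 2) 0
    linarith
  · have h1 : a - algebraMap ℝ B (1 / 8) = cfc (fun t : ℝ => t - 1 / 8) a := by
      rw [cfc_sub (fun t : ℝ => t) (fun _ : ℝ => 1 / 8) a, cfc_id' ℝ a,
        cfc_const (1 / 8 : ℝ) a ha]
    have h2 : algebraMap ℝ B (3 / 8) = cfc (fun _ : ℝ => 3 / 8) a := by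
      rw [cfc_const (3 / 8 : ℝ) a ha]
    rw [h1, h2, ← cfc_mul _ _ a, ← cfc_mul _ _ a, ← cfc_mul _ _ a, ← cfc_mul _ _ a]
    refine cfc_mono fun t _ => ?_
    rcases le_total (t - 1 / 2) 0 with h | h
    · rw [max_eq_right h]
      simp
    · rw [max_eq_left h]
      have h3 : 0 ≤ (t - 1 / 2) * (t - 1 / 2) := mul_nonneg h h
      nlinarith

end Aux

variable {A : ℕ → Type u} [∀ n, CStarAlgebra (A n)] {s : IndSys A}

theorem isSimpleRing_lim [Nontrivial s.Lim] [PartialOrder s.Lim] [StarOrderedRing s.Lim]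
    (hfull : ∀ n (c : A n), c ≠ 0 → ∃ (κ : Type u) (_ : Fintype κ) (E : κ → s.Lim) (δ : ℝ),
      0 < δ ∧ algebraMap ℝ s.Lim δ ≤ ∑ i, E i * s.ι n (star c * c) * star (E i)) :
    IsSimpleRing s.Lim := by
  refine ⟨{ toNontrivial := inferInstance, eq_bot_or_eq_top := fun I => ?_ }⟩
  by_cases hI : I = ⊥
  · exact Or.inl hI
  right
  -- a nonzero element
  obtain ⟨y, hyI, hy0⟩ : ∃ y ∈ I, y ≠ 0 := by
    by_contra hcon
    push Not at hcon
    apply hI
    refine le_antisymm (fun x hx => ?_) bot_le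
    rw [TwoSidedIdeal.mem_bot]
    exact hcon x hx
  have hny : 0 < ‖y‖ := norm_pos_iff.2 hy0
  set c : s.Lim := ((‖y‖ ^ 2)⁻¹ : ℝ) • (star y * y) with hc
  have hcI : c ∈ I := by
    have : c = (((‖y‖ ^ 2)⁻¹ : ℝ) • star y) * y := by rw [hc, smul_mul_assoc]
    rw [this]
    exact I.mul_mem_left _ _ hyI
  have hc0 : 0 ≤ c := smul_nonneg (by positivity) (star_mul_self_nonneg y)
  have hcn : ‖c‖ = 1 := by
    rw [hc, norm_smul, CStarRing.norm_star_mul_self, Real.norm_of_nonneg (by positivity)]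
    field_simp
  have hcs : IsSelfAdjoint c := IsSelfAdjoint.of_nonneg hc0
  -- approximation
  obtain ⟨n, -, a₀, ha₀⟩ := IndSys.exists_ι_norm_sub_lt c (by norm_num : (0 : ℝ) < 1 / 8) 0
  let _ : PartialOrder (A n) := CStarAlgebra.spectralOrder (A n)
  have : StarOrderedRing (A n) := CStarAlgebra.spectralOrderedRing (A n)
  set a : A n := (realPart a₀ : A n) with ha
  have has : IsSelfAdjoint a := (realPart a₀).2
  have hca : ‖c - s.ι n a‖ ≤ 1 / 8 := by
    have h1 : s.ι n a = (realPart (s.ι n a₀) : s.Lim) := by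
      rw [ha, realPart_apply_coe, realPart_apply_coe, ← map_star, ← map_add]
      have h3 : ((2⁻¹ : ℝ) • (a₀ + star a₀)) = ((2⁻¹ : ℝ) : ℂ) • (a₀ + star a₀) :=
        (Complex.coe_smul _ _).symm
      have h4 : ((2⁻¹ : ℝ) • (s.ι n (a₀ + star a₀))) = ((2⁻¹ : ℝ) : ℂ) • s.ι n (a₀ + star a₀) :=
        (Complex.coe_smul _ _).symm
      rw [h3, h4, map_smul]
    have h2 : c = (realPart c : s.Lim) := (hcs.coe_realPart).symm
    have h3 : c - s.ι n a = (realPart (c - s.ι n a₀) : s.Lim) := by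
      rw [map_sub, AddSubgroupClass.coe_sub, ← h2, ← h1]
    rw [h3]
    exact (realPart.norm_le _).trans ha₀.le
  obtain ⟨g, hgs, hg1, hg2⟩ := cutoff_facts a has
  -- comparison of `c` with `ι a`
  have hsa : IsSelfAdjoint (c - s.ι n a) := hcs.sub (has.map (s.ι n))
  have h8 : c ≤ s.ι n a + algebraMap ℝ s.Lim (1 / 8) := by
    have h1 := hsa.le_algebraMap_norm_self
    have h2 : algebraMap ℝ s.Lim ‖c - s.ι n a‖ ≤ algebraMap ℝ s.Lim (1 / 8) :=
      algebraMap_mono s.Lim hca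
    have h3 := h1.trans h2
    rwa [sub_le_iff_le_add'] at h3
  have h8' : s.ι n a - algebraMap ℝ s.Lim (1 / 8) ≤ c := by
    have h1 := hsa.neg_algebraMap_norm_le_self
    have h2 : algebraMap ℝ s.Lim ‖c - s.ι n a‖ ≤ algebraMap ℝ s.Lim (1 / 8) :=
      algebraMap_mono s.Lim hca
    have h3 := (neg_le_neg h2).trans h1
    rw [neg_le_sub_iff_le_add] at h3
    rw [sub_le_iff_le_add]
    exact h3
  have hg0 : g ≠ 0 := by
    rintro rfl
    rw [zero_add] at hg1
    have h1 := hom_mono (s.ι n) hg1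
    rw [hom_algebraMap_real] at h1
    have h2 : c ≤ algebraMap ℝ s.Lim (5 / 8) := by
      refine h8.trans ?_
      have h3 : algebraMap ℝ s.Lim (5 / 8) = algebraMap ℝ s.Lim (1 / 2) +
          algebraMap ℝ s.Lim (1 / 8) := by
        rw [← map_add]; norm_num
      rw [h3]
      gcongr
    have h4 := (CStarAlgebra.norm_le_iff_le_algebraMap c (by norm_num : (0 : ℝ) ≤ 5 / 8) hc0).2 h2
    rw [hcn] at h4
    norm_num at h4
  obtain ⟨κ, hκ, E, δ, hδ, hE⟩ := hfull n g hg0
  -- the invertible element of the ideal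
  set z : s.Lim := ∑ i, E i * (s.ι n g * c * s.ι n g) * star (E i) with hz
  have hzI : z ∈ I := by
    refine sum_mem fun i _ => ?_
    refine I.mul_mem_right _ _ (I.mul_mem_left _ _ ?_)
    exact I.mul_mem_right _ _ (I.mul_mem_left _ _ hcI)
  have hG : star (s.ι n g) = s.ι n g := by rw [← map_star, hgs.star_eq]
  have h9 : algebraMap ℝ s.Lim (3 / 8) * s.ι n (star g * g) ≤ s.ι n g * c * s.ι n g := by
    have h1 := hom_mono (s.ι n) hg2
    simp only [map_mul, map_sub, hom_algebraMap_real] at h1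
    have h2 := star_left_conjugate_le_conjugate h8' (s.ι n g)
    rw [hG] at h2
    rw [hgs.star_eq, map_mul]
    exact h1.trans h2
  have h10 : algebraMap ℝ s.Lim (3 / 8 * δ) ≤ z := by
    have h1 : algebraMap ℝ s.Lim (3 / 8) * algebraMap ℝ s.Lim δ ≤
        algebraMap ℝ s.Lim (3 / 8) * ∑ i, E i * s.ι n (star g * g) * star (E i) := by
      rw [← Algebra.smul_def, ← Algebra.smul_def]
      exact smul_le_smul_of_nonneg_left hE (by norm_num)
    rw [map_mul]
    refine h1.trans ?_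
    rw [Finset.mul_sum]
    refine Finset.sum_le_sum fun i _ => ?_
    have h2 := star_right_conjugate_le_conjugate h9 (E i)
    refine le_trans (le_of_eq ?_) h2
    rw [← mul_assoc, ← mul_assoc, ← mul_assoc, (Algebra.commutes (3 / 8 : ℝ) (E i))]
  have hunit : IsUnit z := by
    refine CStarAlgebra.isUnit_of_le (algebraMap ℝ s.Lim (3 / 8 * δ)) h10 ?_
    refine IsStrictlyPositive.of_le ?_ le_rfl
    refine ⟨?_, ?_⟩
    · exact algebraMap_nonneg s.Lim (by positivity)
    · exact (IsUnit.mk0 _ (by positivity : (3 / 8 * δ : ℝ) ≠ 0)).map (algebraMap ℝ s.Lim)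
  obtain ⟨w, hw⟩ := hunit
  rw [← TwoSidedIdeal.one_mem_iff]
  have : (1 : s.Lim) = ↑w⁻¹ * z := by rw [← hw, Units.inv_mul]
  rw [this]
  exact I.mul_mem_left _ _ hzI

end CStarLim
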